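import Pool.Agent.Lib.DI.V.Spec

/-!
# THEOREM DI, part V: squares among the numbers `2 ^ j b`
-/

set_option autoImplicit false

namespace DI.V

private theorem chSq (p : ℕ) (hp : p.Prime) (h5 : p % 8 = 5) (x : ZMod p) (hx : x ≠ 0) :
    IsSquare x ∨ IsSquare (2 * x) := by
  have : Fact p.Prime := ⟨hp⟩
  by_cases h : IsSquare x
  · exact Or.inl h
  · right
    have hp2 : p ≠ 2 := by
      rintro rfl
      omega
    have h2 : ¬ IsSquare (2 : ZMod p) := by
      rw [ZMod.exists_sq_eq_two_iff hp2]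
      omega
    have h20 : (2 : ZMod p) ≠ 0 := by
      intro h0
      exact h2 (h0 ▸ IsSquare.zero)
    have e1 : quadraticChar (ZMod p) x = -1 := quadraticChar_neg_one_iff_not_isSquare.2 h
    have e2 : quadraticChar (ZMod p) 2 = -1 := quadraticChar_neg_one_iff_not_isSquare.2 h2
    have e3 : quadraticChar (ZMod p) (2 * x) = 1 := by
      rw [map_mul, e1, e2]
      norm_num
    exact (quadraticChar_one_iff_isSquare (mul_ne_zero h20 hx)).1 e3

theorem tCh : S_Ch := by
  intro p hp h5 b hb
  have : Fact p.Prime := ⟨hp⟩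
  have hb0 : (b : ZMod p) ≠ 0 := by
    intro h
    exact hb ((ZMod.intCast_zmod_eq_zero_iff_dvd b p).1 h)
  have h3 : ¬ (p : ℤ) ∣ 3 := by
    intro h
    have h' : p ∣ 3 := by exact_mod_cast h
    have h'' := (Nat.prime_dvd_prime_iff_eq hp Nat.prime_three).1 h'
    omega
  have h4 : ∀ y : ZMod p, IsSquare y → IsSquare (4 * y) := by
    rintro y ⟨r, rfl⟩
    exact ⟨2 * r, by ring⟩
  rcases chSq p hp h5 (b : ZMod p) hb0 with h | h
  · by_cases h1 : (p : ℤ) ∣ b - 1
    · refine ⟨2, ?_, ?_⟩
      · have e : (((2 : ℤ) ^ 2 * b : ℤ) : ZMod p) = 4 * (b : ZMod p) := by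
          push_cast
          ring
        rw [e]
        exact h4 _ h
      · intro h2
        apply h3
        have e : (3 : ℤ) = (2 ^ 2 * b - 1) - 4 * (b - 1) := by ring
        rw [e]
        exact dvd_sub h2 (Dvd.dvd.mul_left h1 4)
    · refine ⟨0, ?_, ?_⟩
      · simpa using h
      · simpa using h1
  · by_cases h1 : (p : ℤ) ∣ 2 * b - 1
    · refine ⟨3, ?_, ?_⟩
      · have e : (((2 : ℤ) ^ 3 * b : ℤ) : ZMod p) = 4 * (2 * (b : ZMod p)) := by
          push_cast
          ring
        rw [e]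
        exact h4 _ h
      · intro h2
        apply h3
        have e : (3 : ℤ) = (2 ^ 3 * b - 1) - 4 * (2 * b - 1) := by ring
        rw [e]
        exact dvd_sub h2 (Dvd.dvd.mul_left h1 4)
    · refine ⟨1, ?_, ?_⟩
      · have e : (((2 : ℤ) ^ 1 * b : ℤ) : ZMod p) = 2 * (b : ZMod p) := by
          push_cast
          ring
        rw [e]
        exact h
      · rw [pow_one]
        exact h1

end DI.V
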