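import Pool.Agent.Lib.DI.V.Spec

set_option autoImplicit false

namespace DI.V

private theorem common {x : ℚ} (hx : A2 x) :
    ∃ n0 : ℕ, ∀ k : ℕ, ∃ c : ℤ, x = c / 2 ^ (n0 + k) := by
  obtain ⟨c, n, rfl⟩ := hx
  refine ⟨n, fun k => ⟨c * 2 ^ k, ?_⟩⟩
  push_cast
  rw [pow_add]
  field_simp

private theorem common4 {a b z d : ℚ} (ha : A2 a) (hb : A2 b) (hz : A2 z) (hd : A2 d) :
    ∃ (n : ℕ) (a1 b1 z1 d1 : ℤ), a = a1 / 2 ^ n ∧ b = b1 / 2 ^ n ∧ z = z1 / 2 ^ n ∧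
      d = d1 / 2 ^ n := by
  obtain ⟨na, ka⟩ := common ha
  obtain ⟨nb, kb⟩ := common hb
  obtain ⟨nz, kz⟩ := common hz
  obtain ⟨nd, kd⟩ := common hd
  obtain ⟨a1, h1⟩ := ka (nb + nz + nd)
  obtain ⟨b1, h2⟩ := kb (na + nz + nd)
  obtain ⟨z1, h3⟩ := kz (na + nb + nd)
  obtain ⟨d1, h4⟩ := kd (na + nb + nz)
  refine ⟨na + nb + nz + nd, a1, b1, z1, d1, ?_, ?_, ?_, ?_⟩
  · rw [h1]; congr 2; omega
  · rw [h2]; congr 2; omega
  · rw [h3]; congr 2; omega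
  · rw [h4]; congr 2; omega

private theorem split {M : ℕ} (hM : Odd M) {n : ℕ} {a1 b1 z1 d1 : ℤ}
    (h : a1 * d1 - b1 * (M * z1) = 2 ^ (2 * n)) :
    ∃ (i k : ℕ) (a0 c0 : ℤ), a1 = 2 ^ i * a0 ∧ M * z1 = 2 ^ i * c0 ∧ IsCoprime a0 c0 ∧
      (M : ℤ) ∣ c0 ∧ a0 * d1 - c0 * b1 = 2 ^ k := by
  have hg : ((Int.gcd a1 (M * z1) : ℕ) : ℤ) ∣ 2 ^ (2 * n) := by
    rw [← h]
    exact dvd_sub (Dvd.dvd.mul_right (Int.gcd_dvd_left _ _) _)
      (Dvd.dvd.mul_left (Int.gcd_dvd_right _ _) _)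
  have hg' : Int.gcd a1 (M * z1) ∣ 2 ^ (2 * n) := by exact_mod_cast hg
  obtain ⟨i, hi, e⟩ := (Nat.dvd_prime_pow Nat.prime_two).1 hg'
  have hpos : 0 < Int.gcd a1 (M * z1) := by rw [e]; positivity
  obtain ⟨a0, c0, h1, h2, h3⟩ := Int.exists_gcd_one hpos
  rw [e] at h2 h3
  push_cast at h2 h3
  have hM2 : IsCoprime (M : ℤ) (2 ^ i) := by
    refine IsCoprime.pow_right ?_
    have h : Nat.Coprime M 2 := (Nat.coprime_two_right).2 hM
    exact_mod_cast Nat.isCoprime_iff_coprime.2 h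
  refine ⟨i, 2 * n - i, a0, c0, by rw [h2, mul_comm], by rw [h3, mul_comm],
    Int.isCoprime_iff_gcd_eq_one.2 h1, ?_, ?_⟩
  · refine hM2.dvd_of_dvd_mul_right ?_
    rw [← h3]
    exact dvd_mul_right _ _
  · have h4 : (2 : ℤ) ^ i * (a0 * d1 - c0 * b1) = 2 ^ i * 2 ^ (2 * n - i) := by
      rw [← pow_add, Nat.add_sub_cancel' hi, ← h, h3]
      rw [h2]
      ring
    exact mul_left_cancel₀ (by positivity) h4

/-- Decomposition. -/
theorem tDec : S_Dec := by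
  intro M hM a b z d ha hb hz hd h
  obtain ⟨n, a1, b1, z1, d1, rfl, rfl, rfl, rfl⟩ := common4 ha hb hz hd
  have h1 : a1 * d1 - b1 * (M * z1) = 2 ^ (2 * n) := by
    have h2 : ((a1 : ℚ) * d1 - b1 * (M * z1)) = 2 ^ (2 * n) := by
      have h3 : (2 : ℚ) ^ n ≠ 0 := by positivity
      have e : (a1 : ℚ) * d1 - b1 * (M * z1) =
          (a1 / 2 ^ n * (d1 / 2 ^ n) - b1 / 2 ^ n * (M * (z1 / 2 ^ n))) * (2 ^ n * 2 ^ n) := by
        field_simp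
      rw [e, h, one_mul, ← pow_add, two_mul]
    exact_mod_cast h2
  obtain ⟨i, k, a0, c0, e1, e2, h2, h3, h4⟩ := split hM h1
  obtain ⟨u, v, h5⟩ := h2
  refine ⟨a0, -v, c0, u, by linarith, h3, fun y hy => ?_⟩
  have hD : (2 : ℚ) ^ k ≠ 0 := by positivity
  have hn : (2 : ℚ) ^ n ≠ 0 := by positivity
  have q1 : (a1 : ℚ) = 2 ^ i * a0 := by exact_mod_cast e1
  have q2 : (M : ℚ) * z1 = 2 ^ i * c0 := by exact_mod_cast e2
  have q4 : (a0 : ℚ) * d1 - c0 * b1 = 2 ^ k := by exact_mod_cast h4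
  have q5 : (u : ℚ) * a0 + v * c0 = 1 := by exact_mod_cast h5
  refine ⟨(2 ^ i * y + u * b1 + v * d1) / 2 ^ k, ?_, ?_⟩
  · refine A2.div_pow ?_ k
    refine A2.add (A2.add (A2.mul ?_ hy) ((A2.int u).mul (A2.int b1))) ((A2.int v).mul (A2.int d1))
    have := A2.int (2 ^ i)
    push_cast at this
    exact this
  · have r1 : (a0 : ℚ) * ((2 ^ i * y + u * b1 + v * d1) / 2 ^ k) + ((-v : ℤ) : ℚ) =
        (a1 * y + b1) / 2 ^ k := by
      push_cast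
      rw [eq_div_iff hD, add_mul, mul_assoc, div_mul_cancel₀ _ hD, ← q4, q1]
      linear_combination (b1 : ℚ) * q5
    have r2 : (c0 : ℚ) * ((2 ^ i * y + u * b1 + v * d1) / 2 ^ k) + (u : ℚ) =
        (M * z1 * y + d1) / 2 ^ k := by
      rw [eq_div_iff hD, add_mul, mul_assoc, div_mul_cancel₀ _ hD, ← q4, q2]
      linear_combination (d1 : ℚ) * q5
    have r3 : (a1 : ℚ) / 2 ^ n * y + b1 / 2 ^ n = (a1 * y + b1) / 2 ^ n := by
      rw [add_div]; ring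
    have r4 : (M : ℚ) * (z1 / 2 ^ n) * y + d1 / 2 ^ n = (M * z1 * y + d1) / 2 ^ n := by
      rw [add_div]; ring
    rw [r1, r2, r3, r4, div_div_div_cancel_right₀ hn, div_div_div_cancel_right₀ hD]

end DI.V
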