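import Pool.Agent.Lib.DI.V.Spec

/-!
# THEOREM DI, part V: the exponent
-/

set_option autoImplicit false

namespace DI.V

private theorem exPow (p q : ℕ) (hp : p.Prime) (hq : q.Prime) (hp4 : p % 4 = 1) (hq4 : q % 4 = 3)
    (h : IsSquare (q : ZMod p)) : (p : ZMod q) ^ ((q - 1) / 2) = 1 := by
  have : Fact p.Prime := ⟨hp⟩
  have : Fact q.Prime := ⟨hq⟩
  have hq2 : q ≠ 2 := by
    rintro rfl
    omega
  have h1 : IsSquare (p : ZMod q) := (ZMod.exists_sq_eq_prime_iff_of_mod_four_eq_one hp4 hq2).1 h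
  have h2 : (p : ZMod q) ≠ 0 := by
    intro h0
    have h3 : q ∣ p := (ZMod.natCast_eq_zero_iff p q).1 h0
    have h4 := (Nat.prime_dvd_prime_iff_eq hq hp).1 h3
    omega
  have h3 := (ZMod.euler_criterion q h2).1 h1
  have h4 : q / 2 = (q - 1) / 2 := by omega
  rw [h4] at h3
  exact h3

theorem tEx : S_Ex := by
  intro p q1 q2 hp hq1 hq2 hp4 hq14 hq24 hs1 hs2 hc
  have h1 := exPow p q1 hp hq1 hp4 hq14 hs1
  have h2 := exPow p q2 hp hq2 hp4 hq24 hs2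
  obtain ⟨n1, hn1⟩ : ∃ n1, n1 = (q1 - 1) / 2 := ⟨_, rfl⟩
  obtain ⟨n2, hn2⟩ : ∃ n2, n2 = (q2 - 1) / 2 := ⟨_, rfl⟩
  rw [← hn1] at h1
  rw [← hn2] at h2
  rw [← hn1, ← hn2] at hc
  have hn1p : 1 ≤ n1 := by omega
  have hn2p : 1 ≤ n2 := by omega
  obtain ⟨e0, he1, he2⟩ := Nat.chineseRemainder hc 1 0
  obtain ⟨e, he⟩ : ∃ e, e = e0 + n1 * n2 := ⟨_, rfl⟩
  have hepos : 1 ≤ e := by
    rw [he]
    have := Nat.mul_pos hn1p hn2p
    omega
  have he1' : e ≡ 1 [MOD n1] := by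
    rw [he]
    have : e0 + n1 * n2 ≡ 1 + 0 [MOD n1] :=
      he1.add ((Nat.modEq_zero_iff_dvd).2 (dvd_mul_right _ _))
    simpa using this
  have he2' : e ≡ 0 [MOD n2] := by
    rw [he]
    have : e0 + n1 * n2 ≡ 0 + 0 [MOD n2] :=
      he2.add ((Nat.modEq_zero_iff_dvd).2 (dvd_mul_left _ _))
    simpa using this
  refine ⟨e, hepos, ?_, ?_⟩
  · obtain ⟨t, ht⟩ : n1 ∣ e - 1 := (Nat.modEq_iff_dvd' hepos).1 he1'.symm
    have e1 : e = n1 * t + 1 := by omega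
    rw [← ZMod.intCast_zmod_eq_zero_iff_dvd]
    push_cast
    rw [e1, pow_succ, pow_mul, h1, one_pow, one_mul, sub_self]
  · obtain ⟨t, ht⟩ := (Nat.modEq_zero_iff_dvd).1 he2'
    rw [← ZMod.intCast_zmod_eq_zero_iff_dvd]
    push_cast
    rw [ht, pow_mul, h2, one_pow, sub_self]

end DI.V
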