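import Pool.Agent.Lib.DI.V.Spec

/-!
# THEOREM DI, part V: two primes
-/

set_option autoImplicit false

namespace DI.V

private theorem prCrt (m n x y : ℤ) (h : IsCoprime m n) (hx : IsCoprime x m)
    (hy : IsCoprime y n) : ∃ a : ℤ, m ∣ a - x ∧ n ∣ a - y ∧ IsCoprime a (m * n) := by
  obtain ⟨u, v, huv⟩ := h
  refine ⟨x * (v * n) + y * (u * m), ⟨y * u - x * u, ?_⟩, ⟨x * v - y * v, ?_⟩, ?_⟩
  · have e : v * n = 1 - u * m := by linarith
    rw [e]
    ring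
  · have e : u * m = 1 - v * n := by linarith
    rw [e]
    ring
  · apply IsCoprime.mul_right
    · have e : x * (v * n) + y * (u * m) = x + m * (y * u - x * u) := by
        have e1 : v * n = 1 - u * m := by linarith
        rw [e1]
        ring
      rw [e]
      exact hx.add_mul_left_left _
    · have e : x * (v * n) + y * (u * m) = y + n * (x * v - y * v) := by
        have e1 : u * m = 1 - v * n := by linarith
        rw [e1]
        ring
      rw [e]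
      exact hy.add_mul_left_left _

theorem tPr : S_Pr := by
  intro p hp hp2 s b hs hb hb1 M
  have hpI : Prime (p : ℤ) := Nat.prime_iff_prime_int.1 hp
  have hps : 0 < p ^ s := pow_pos hp.pos s
  -- coprimality
  have c1 : IsCoprime (4 : ℤ) ((p : ℤ) ^ s) := by
    apply IsCoprime.pow_right
    have h : Nat.Coprime 4 p := by
      have h2 : Nat.Coprime 2 p := (Nat.coprime_primes Nat.prime_two hp).2 (Ne.symm hp2)
      have h3 : Nat.Coprime (2 ^ 2) p := Nat.Coprime.pow_left 2 h2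
      simpa using h3
    exact_mod_cast Nat.isCoprime_iff_coprime.2 h
  have cb : IsCoprime b ((p : ℤ) ^ s) := by
    apply IsCoprime.pow_right
    exact ((Prime.coprime_iff_not_dvd hpI).2 hb).symm
  have c34 : IsCoprime (3 : ℤ) 4 := ⟨-1, 1, by norm_num⟩
  obtain ⟨a, ha4, hab, hac⟩ := prCrt 4 ((p : ℤ) ^ s) 3 b c1 c34 cb
  obtain ⟨q1, hq1M, hq1, hq1a⟩ := Nat.forall_exists_prime_gt_and_zmodEq M
    (q := 4 * p ^ s) (a := a) (by positivity) (by push_cast; exact hac)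
  have hd1 : ((4 * p ^ s : ℕ) : ℤ) ∣ q1 - a := (Int.modEq_iff_dvd.1 hq1a.symm)
  push_cast at hd1
  have h14 : (4 : ℤ) ∣ q1 - 3 := by
    have e : (q1 : ℤ) - 3 = (q1 - a) + (a - 3) := by ring
    rw [e]
    exact dvd_add ((dvd_mul_right _ _).trans hd1) ha4
  have h1p : (p : ℤ) ^ s ∣ q1 - b := by
    have e : (q1 : ℤ) - b = (q1 - a) + (a - b) := by ring
    rw [e]
    exact dvd_add ((dvd_mul_left _ _).trans hd1) hab
  have hq14 : q1 % 4 = 3 := by omega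
  obtain ⟨n1, hn1⟩ : ∃ n1, n1 = (q1 - 1) / 2 := ⟨_, rfl⟩
  have hn1q : 2 * n1 = q1 - 1 := by omega
  have hn1o : n1 % 2 = 1 := by omega
  have hq1pos : 1 ≤ q1 := hq1.one_lt.le
  have hn1Z : 2 * (n1 : ℤ) = q1 - 1 := by omega
  have hpn1 : ¬ (p : ℤ) ∣ n1 := by
    intro h
    apply hb1
    have hpb : (p : ℤ) ∣ q1 - b := (dvd_pow_self (p : ℤ) (by omega)).trans h1p
    have e : b - 1 = 2 * (n1 : ℤ) - (q1 - b) := by
      rw [hn1Z]
      ring
    rw [e]
    exact dvd_sub (Dvd.dvd.mul_left h 2) hpb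
  have c2 : IsCoprime (2 : ℤ) n1 := by
    refine ⟨-((n1 : ℤ) / 2), 1, ?_⟩
    omega
  have c3 : IsCoprime (4 * (p : ℤ) ^ s) n1 := by
    apply IsCoprime.mul_left
    · have e : (4 : ℤ) = 2 ^ 2 := by norm_num
      rw [e]
      exact c2.pow_left
    · apply IsCoprime.pow_left
      exact (Prime.coprime_iff_not_dvd hpI).2 hpn1
  obtain ⟨a', ha', ha'n, ha'c⟩ := prCrt (4 * (p : ℤ) ^ s) n1 a 2 c3 hac c2
  obtain ⟨q2, hq2M, hq2, hq2a⟩ := Nat.forall_exists_prime_gt_and_zmodEq M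
    (q := 4 * p ^ s * n1) (a := a') (by
      have : n1 ≠ 0 := by omega
      positivity) (by push_cast; exact ha'c)
  have hd2 : ((4 * p ^ s * n1 : ℕ) : ℤ) ∣ q2 - a' := (Int.modEq_iff_dvd.1 hq2a.symm)
  push_cast at hd2
  have h2a : 4 * (p : ℤ) ^ s ∣ q2 - a := by
    have e : (q2 : ℤ) - a = (q2 - a') + (a' - a) := by ring
    rw [e]
    exact dvd_add ((dvd_mul_right _ _).trans hd2) ha'
  have h2n : (n1 : ℤ) ∣ q2 - 2 := by
    have e : (q2 : ℤ) - 2 = (q2 - a') + (a' - 2) := by ring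
    rw [e]
    exact dvd_add ((dvd_mul_left _ _).trans hd2) ha'n
  have h24 : (4 : ℤ) ∣ q2 - 3 := by
    have e : (q2 : ℤ) - 3 = (q2 - a) + (a - 3) := by ring
    rw [e]
    exact dvd_add ((dvd_mul_right _ _).trans h2a) ha4
  have h2p : (p : ℤ) ^ s ∣ q2 - b := by
    have e : (q2 : ℤ) - b = (q2 - a) + (a - b) := by ring
    rw [e]
    exact dvd_add ((dvd_mul_left _ _).trans h2a) hab
  have hq24 : q2 % 4 = 3 := by omega
  refine ⟨q1, q2, hq1, hq2, hq1M, hq2M, h1p, h2p, hq14, hq24, ?_⟩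
  rw [← hn1]
  obtain ⟨n2, hn2⟩ : ∃ n2, n2 = (q2 - 1) / 2 := ⟨_, rfl⟩
  rw [← hn2]
  have hn2Z : 2 * (n2 : ℤ) = q2 - 1 := by omega
  have hg1 : ((Nat.gcd n1 n2 : ℕ) : ℤ) ∣ n1 := by exact_mod_cast Nat.gcd_dvd_left n1 n2
  have hg2 : ((Nat.gcd n1 n2 : ℕ) : ℤ) ∣ n2 := by exact_mod_cast Nat.gcd_dvd_right n1 n2
  have hg3 : ((Nat.gcd n1 n2 : ℕ) : ℤ) ∣ 1 := by
    have e : (1 : ℤ) = 2 * n2 - (q2 - 2) := by
      rw [hn2Z]
      ring
    rw [e]
    exact dvd_sub (Dvd.dvd.mul_left hg2 2) (hg1.trans h2n)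
  have hg4 : Nat.gcd n1 n2 ∣ 1 := by exact_mod_cast hg3
  exact Nat.dvd_one.1 hg4

end DI.V
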