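import Pool.Agent.Lib.DI.V.Spec

set_option autoImplicit false

/-!
# THEOREM DI, part V: the orbit of `0` is stable under `r ↦ 2 r` and `r ↦ r / 2` (helper11)
-/

namespace DI.V

theorem tSc : S_Sc := by
  intro M r hr
  induction hr with
  | zero =>
    refine ⟨?_, ?_⟩
    · rw [mul_zero]
      exact E0.zero
    · rw [zero_div]
      exact E0.zero
  | up hy _ ih =>
    refine ⟨?_, ?_⟩
    · rw [mul_add]
      exact E0.up hy.two_mul ih.1
    · rw [add_div]
      exact E0.up hy.half ih.2
  | @lo r z hz _ ih =>
    refine ⟨?_, ?_⟩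
    · have h := E0.lo hz.half ih.1
      have e : (M : ℚ) * (z / 2) * (2 * r) + 1 = M * z * r + 1 := by ring
      rw [e] at h
      rw [← mul_div_assoc]
      exact h
    · have h := E0.lo hz.two_mul ih.2
      have e : (M : ℚ) * (2 * z) * (r / 2) + 1 = M * z * r + 1 := by ring
      rw [e] at h
      rw [div_right_comm]
      exact h

end DI.V
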