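import Pool.Agent.Lib.DI.V.Spec

/-!
# THEOREM DI, part V: the case of a prime `p ≡ 5` modulo `8`, `p ≡ 1` modulo `M` (helper17)
-/

set_option autoImplicit false

namespace DI.V

/-- Division by a power of `2`. -/
private theorem stHalf (h : S_Sc) (M k : ℕ) (r : ℚ) (hr : E0 M (2 ^ k * r)) : E0 M r := by
  induction k with
  | zero => simpa using hr
  | succ k ih =>
    refine ih ?_
    have h1 := (h M _ hr).2
    have e : (2 : ℚ) ^ (k + 1) * r / 2 = 2 ^ k * r := by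
      rw [pow_succ]
      ring
    rwa [e] at h1

/-- The exact power of `p` dividing `2 ^ (p - 1) - 1`. -/
private theorem stPow (p : ℕ) (hp : p.Prime) (hp2 : p ≠ 2) :
    ∃ (s : ℕ) (u : ℤ), 1 ≤ s ∧ ¬ (p : ℤ) ∣ u ∧ (2 : ℤ) ^ (p - 1) = 1 + p ^ s * u := by
  have hp3 : 2 < p := lt_of_le_of_ne hp.two_le (Ne.symm hp2)
  have h1 : 1 < 2 ^ (p - 1) := Nat.one_lt_pow (by omega) (by omega)
  obtain ⟨n, hn⟩ : ∃ n, 2 ^ (p - 1) = 1 + n := ⟨2 ^ (p - 1) - 1, by omega⟩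
  have hn0 : n ≠ 0 := by omega
  obtain ⟨s, u, hu, hsu⟩ := Nat.exists_eq_pow_mul_and_not_dvd hn0 p hp.ne_one
  have hF : (p : ℤ) ∣ (n : ℤ) := by
    have h2 : (2 : ℤ) ^ (p - 1) ≡ 1 [ZMOD p] := by
      refine Int.ModEq.pow_card_sub_one_eq_one hp ?_
      have h3 : Nat.Coprime 2 p := (Nat.coprime_primes Nat.prime_two hp).2 (Ne.symm hp2)
      exact_mod_cast Nat.isCoprime_iff_coprime.2 h3
    have h4 := (Int.modEq_iff_dvd.1 h2.symm)
    have h5 : (2 : ℤ) ^ (p - 1) - 1 = n := by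
      have h6 : ((2 ^ (p - 1) : ℕ) : ℤ) = 1 + n := by exact_mod_cast hn
      push_cast at h6
      linarith
    rwa [h5] at h4
  have hF' : p ∣ n := by exact_mod_cast hF
  refine ⟨s, u, ?_, ?_, ?_⟩
  · rcases Nat.eq_zero_or_pos s with h0 | h0
    · rw [h0, pow_zero, one_mul] at hsu
      rw [hsu] at hF'
      exact absurd hF' hu
    · exact h0
  · intro h0
    exact hu (by exact_mod_cast h0)
  · rw [hsu] at hn
    exact_mod_cast hn

/-- Part (1): `q2 / p ^ e`. -/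
private theorem stOne (M p q e : ℕ) (hM : 3 ≤ M) (hq : q.Prime) (hMq : M < q)
    (hMp : (M : ℤ) ∣ p - 1) (h : (q : ℤ) ∣ (p : ℤ) ^ e - 1) : E0 M (q / p ^ e) := by
  have h1 : (M : ℤ) ∣ (p : ℤ) ^ e - 1 := hMp.trans (sub_one_dvd_pow_sub_one (p : ℤ) e)
  have h2 : IsCoprime (M : ℤ) (q : ℤ) := by
    have h3 : Nat.Coprime q M :=
      (Nat.Prime.coprime_iff_not_dvd hq).2 fun h4 => absurd (Nat.le_of_dvd (by omega) h4) (by omega)
    exact Nat.isCoprime_iff_coprime.2 h3.symm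
  obtain ⟨z, hz⟩ := h2.mul_dvd h1 h
  have h5 : E0 M (0 + q) := E0.up (A2.nat q) E0.zero
  have h6 := E0.lo (A2.int z) h5
  have e1 : (M : ℚ) * z * (0 + q) + 1 = (p : ℚ) ^ e := by
    have h7 : (((p : ℤ) ^ e - 1 : ℤ) : ℚ) = ((M : ℤ) * q * z : ℤ) := by rw [hz]
    push_cast at h7
    linarith
  rw [e1, zero_add] at h6
  exact h6

/-- Part (2), the exponent of `2`. -/
private theorem stTwo (hPw : S_Pw) (p : ℕ) (hp : p.Prime) (hp2 : p ≠ 2) (s : ℕ) (u : ℤ)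
    (hs : 1 ≤ s) (hu : ¬ (p : ℤ) ∣ u) (h2 : (2 : ℤ) ^ (p - 1) = 1 + p ^ s * u) (a c : ℤ)
    (ha : ¬ (p : ℤ) ∣ a) (hac : (p : ℤ) ^ s ∣ a - c) (e : ℕ) :
    ∃ (k : ℕ) (t : ℤ), 2 ^ k * a = c + p ^ e * t := by
  have hpp : Prime (p : ℤ) := Nat.prime_iff_prime_int.1 hp
  have hc1 : IsCoprime (p : ℤ) a := (hpp.coprime_iff_not_dvd).2 ha
  have hc2 : IsCoprime ((p : ℤ) ^ (max e s)) a := hc1.pow_left
  obtain ⟨v, w, hvw⟩ := hc2
  obtain ⟨x, hx⟩ : ∃ x : ℤ, x = w * c := ⟨_, rfl⟩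
  have hx1 : x * a - c = (p : ℤ) ^ (max e s) * (-(v * c)) := by
    rw [hx]
    linear_combination c * hvw
  have hd1 : (p : ℤ) ^ (max e s) ∣ x * a - c := ⟨_, hx1⟩
  have hs1 : (p : ℤ) ^ s ∣ x - 1 := by
    have h3 : (p : ℤ) ^ s ∣ x * a - c := (pow_dvd_pow (p : ℤ) (le_max_right e s)).trans hd1
    have h4 : (p : ℤ) ^ s ∣ (x - 1) * a := by
      have h5 := dvd_sub h3 hac
      have h6 : x * a - c - (a - c) = (x - 1) * a := by ring
      rwa [h6] at h5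
    exact (hc1.pow_left (m := s)).dvd_of_dvd_mul_right h4
  obtain ⟨k, hk⟩ := hPw p hp hp2 s u x hs hu h2 hs1 e
  have h7 : (p : ℤ) ^ e ∣ 2 ^ k * a - c := by
    have h8 : (p : ℤ) ^ e ∣ x * a - c := (pow_dvd_pow (p : ℤ) (le_max_left e s)).trans hd1
    have h9 := dvd_add (hk.mul_right a) h8
    have h10 : (2 ^ k - x) * a + (x * a - c) = 2 ^ k * a - c := by ring
    rwa [h10] at h9
  obtain ⟨t, ht⟩ := h7
  exact ⟨k, t, by linarith⟩

/-- Part (4): from `q / p ^ e` to `q / p`. -/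
private theorem stFour (M p q e : ℕ) (hM : 3 ≤ M) (hp : p.Prime) (hq : q.Prime) (hMq : M < q)
    (hMp : (M : ℤ) ∣ p - 1) (h : (q : ℤ) ∣ (p : ℤ) ^ e - p)
    (h0 : E0 M (q / p ^ e)) : E0 M (q / p) := by
  have h1 : (M : ℤ) ∣ (p : ℤ) ^ e - p := by
    have h2 : (M : ℤ) ∣ (p : ℤ) ^ e - 1 := hMp.trans (sub_one_dvd_pow_sub_one (p : ℤ) e)
    have h3 := dvd_sub h2 hMp
    have h4 : (p : ℤ) ^ e - 1 - (p - 1) = (p : ℤ) ^ e - p := by ring
    rwa [h4] at h3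
  have h2 : IsCoprime (M : ℤ) (q : ℤ) := by
    have h3 : Nat.Coprime q M :=
      (Nat.Prime.coprime_iff_not_dvd hq).2 fun h4 => absurd (Nat.le_of_dvd (by omega) h4) (by omega)
    exact Nat.isCoprime_iff_coprime.2 h3.symm
  obtain ⟨w, hw⟩ := h2.mul_dvd h1 h
  have h6 := E0.lo ((A2.int w).neg) h0
  have hp0 : (p : ℚ) ≠ 0 := by exact_mod_cast hp.ne_zero
  have h7 : (p : ℚ) ^ e = p + M * q * w := by
    have h8 : (((p : ℤ) ^ e - p : ℤ) : ℚ) = ((M : ℤ) * q * w : ℤ) := by rw [hw]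
    push_cast at h8
    linarith
  have hpe : (p : ℚ) ^ e ≠ 0 := pow_ne_zero e hp0
  have e1 : (M : ℚ) * -w * (q / p ^ e) + 1 = p / p ^ e := by
    have e2 : (M : ℚ) * -w * (q / p ^ e) + 1 = (p ^ e - M * q * w) / p ^ e := by
      field_simp
      ring
    rw [e2]
    have e3 : (p : ℚ) ^ e - M * q * w = p := by linarith
    rw [e3]
  rw [e1, div_div_div_cancel_right₀ hpe] at h6
  exact h6

theorem tStP : S_Pw → S_Ch → S_Pr → S_Ex → S_Sc → S_StP := by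
  intro hPw hCh hPr hEx hSc M hMo hM p hp hp8 hMp b hb
  have hp2 : p ≠ 2 := by
    rintro rfl
    omega
  have hpp : Prime (p : ℤ) := Nat.prime_iff_prime_int.1 hp
  obtain ⟨s, u, hs, hu, h2⟩ := stPow p hp hp2
  obtain ⟨j, hj1, hj2⟩ := hCh p hp hp8 b hb
  obtain ⟨c, hc⟩ : ∃ c : ℤ, c = 2 ^ j * b := ⟨_, rfl⟩
  rw [← hc] at hj1 hj2
  have hp2' : ¬ (p : ℤ) ∣ 2 := by
    intro h3
    have h4 : p ∣ 2 := by exact_mod_cast h3
    exact hp2 ((Nat.prime_dvd_prime_iff_eq hp Nat.prime_two).1 h4)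
  have hcp : ¬ (p : ℤ) ∣ c := by
    intro h3
    rw [hc] at h3
    rcases hpp.dvd_or_dvd h3 with h4 | h4
    · exact hp2' (hpp.dvd_of_dvd_pow h4)
    · exact hb h4
  obtain ⟨q1, q2, hq1, hq2, hM1, hM2, hd1, hd2, h41, h42, hco⟩ :=
    hPr p hp hp2 s c hs hcp hj2 M
  have hps : (p : ℤ) ∣ (p : ℤ) ^ s := dvd_pow_self _ (by omega)
  have hsq1 : IsSquare (q1 : ZMod p) := by
    have h3 : ((q1 : ℤ) : ZMod p) = ((c : ℤ) : ZMod p) := by
      have h4 := (ZMod.intCast_zmod_eq_zero_iff_dvd ((q1 : ℤ) - c) p).2 (hps.trans hd1)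
      rw [Int.cast_sub] at h4
      exact sub_eq_zero.1 h4
    rw [← h3, Int.cast_natCast] at hj1
    exact hj1
  have hsq2 : IsSquare (q2 : ZMod p) := by
    have h3 : ((q2 : ℤ) : ZMod p) = ((q1 : ℤ) : ZMod p) := by
      have h4 := (ZMod.intCast_zmod_eq_zero_iff_dvd ((q2 : ℤ) - q1) p).2 (by
        have h5 := dvd_sub (hps.trans hd2) (hps.trans hd1)
        have h6 : (q2 : ℤ) - c - (q1 - c) = q2 - q1 := by ring
        rwa [h6] at h5)
      rw [Int.cast_sub] at h4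
      exact sub_eq_zero.1 h4
    rw [Int.cast_natCast, Int.cast_natCast] at h3
    rw [h3]
    exact hsq1
  obtain ⟨e, _, he1, he2⟩ := hEx p q1 q2 hp hq1 hq2 (by omega) h41 h42 hsq1 hsq2 hco
  have hE1 : E0 M (q2 / p ^ e) := stOne M p q2 e hM hq2 hM2 hMp he2
  have hq1p : ¬ (p : ℤ) ∣ q1 := by
    intro h3
    refine hcp ?_
    have h4 := dvd_sub h3 (hps.trans hd1)
    have h5 : (q1 : ℤ) - (q1 - c) = c := by ring
    rwa [h5] at h4
  have hq12 : (p : ℤ) ^ s ∣ (q1 : ℤ) - q2 := by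
    have h4 := dvd_sub hd1 hd2
    have h5 : (q1 : ℤ) - c - (q2 - c) = q1 - q2 := by ring
    rwa [h5] at h4
  obtain ⟨k, t, hkt⟩ := stTwo hPw p hp hp2 s u hs hu h2 q1 q2 hq1p hq12 e
  have hp0 : (p : ℚ) ≠ 0 := by exact_mod_cast hp.ne_zero
  have hpe : (p : ℚ) ^ e ≠ 0 := pow_ne_zero e hp0
  have hE2 : E0 M (2 ^ k * (q1 / p ^ e)) := by
    have h3 := E0.up (A2.int t) hE1
    have h4 : ((2 : ℚ)) ^ k * q1 = q2 + p ^ e * t := by
      have h5 : ((2 ^ k * q1 : ℤ) : ℚ) = ((q2 + p ^ e * t : ℤ) : ℚ) := by rw [hkt]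
      push_cast at h5
      exact h5
    have h6 : (2 : ℚ) ^ k * (q1 / p ^ e) = q2 / p ^ e + t := by
      rw [← mul_div_assoc, h4]
      field_simp
    rw [h6]
    exact h3
  have hE3 : E0 M (q1 / p ^ e) := stHalf hSc M k _ hE2
  have hE4 : E0 M (q1 / p) := stFour M p q1 e hM hp hq1 hM1 hMp he1 hE3
  have hE5 : E0 M (2 ^ j * (b / p)) := by
    obtain ⟨y, hy⟩ := hps.trans hd1
    have h3 := E0.up (A2.int (-y)) hE4
    have h4 : (2 : ℚ) ^ j * b = q1 - p * y := by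
      have h5 : ((2 ^ j * b : ℤ) : ℚ) = ((q1 - p * y : ℤ) : ℚ) := by
        rw [← hc, ← hy]
        congr 1
        ring
      push_cast at h5
      exact h5
    have h6 : (2 : ℚ) ^ j * (b / p) = q1 / p + ((-y : ℤ) : ℚ) := by
      rw [← mul_div_assoc, h4]
      push_cast
      field_simp
      ring
    rw [h6]
    exact h3
  exact stHalf hSc M j _ hE5

end DI.V
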