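import Pool.Agent.Lib.DI.V.Spec

/-!
# THEOREM DI, part V, module V: the symbol is constant on the classes `b/d` with `d ≡ 1`
-/

set_option autoImplicit false

namespace DI.V

theorem tV : S_Vg → S_St → S_V := by
  intro hVg hSt M F _ X a b c d had _ hd
  refine hVg M F X _ (hSt M X.odd X.three b d ⟨-c, a, ?_⟩ hd)
  linear_combination had

end DI.V
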