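import Pool.Agent.Lib.DI.V.Spec

/-!
# THEOREM DI, part V: h is constant on the ring of the dyadic rational numbers
-/

set_option autoImplicit false

namespace DI.V

private theorem Vb_int {M : ℕ} {F : Type} [Field F] (X : Sy M F) (c : ℤ) : X.h c = X.h 0 := by
  induction c using Int.induction_on with
  | zero => rw [Int.cast_zero]
  | succ n ih =>
    have h := X.v3 ((n : ℤ) : ℚ) (QM.int n)
    rw [← ih, ← h]
    push_cast
    rfl
  | pred n ih =>
    have h := X.v3 ((-(n : ℤ) - 1 : ℤ) : ℚ) (QM.int _)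
    rw [← ih, ← h]
    push_cast
    rw [sub_add_cancel]

private theorem Vb_pow {M : ℕ} {F : Type} [Field F] (X : Sy M F) (c : ℤ) (n : ℕ) :
    X.h (c / 2 ^ n) = (-X.kb) ^ n * X.h c := by
  induction n with
  | zero => rw [pow_zero, pow_zero, div_one, one_mul]
  | succ n ih =>
    have h := X.van ((c : ℚ) / 2 ^ (n + 1)) ⟨c, n + 1, rfl⟩
    have e : 2 * ((c : ℚ) / 2 ^ (n + 1)) = c / 2 ^ n := by
      rw [pow_succ]
      field_simp
    rw [e, ih] at h
    rw [eq_neg_of_add_eq_zero_left h, pow_succ]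
    ring

theorem tVb : S_Vb := by
  intro M F _ X y hy
  obtain ⟨c, n, rfl⟩ := hy
  rw [Vb_pow, Vb_int]
  have h := X.van 0 A2.zero
  rw [mul_zero] at h
  by_cases h0 : X.h 0 = 0
  · rw [h0, mul_zero]
  · have h1 : (1 + X.kb) * X.h 0 = 0 := by
      rw [add_mul, one_mul]
      exact h
    have h2 : 1 + X.kb = 0 := (mul_eq_zero.1 h1).resolve_right h0
    have h3 : -X.kb = 1 := (eq_neg_of_add_eq_zero_left h2).symm
    rw [h3, one_pow, one_mul]

end DI.V
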