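import Pool.Agent.Lib.DI.V.Spec

set_option autoImplicit false

namespace DI.V

theorem tVc : S_Vi → S_Dec → S_Vc := by
  intro hVi hDec M F _ X a b z d ha hb hz hd h y hy
  obtain ⟨a0, b0, c0, d0, hdet, hM, H⟩ := hDec M X.odd a b z d ha hb hz hd h
  obtain ⟨y', hy', e⟩ := H y hy
  obtain ⟨y0, hy0, e0⟩ := H 0 A2.zero
  have e1 : b / d = (a * 0 + b) / (M * z * 0 + d) := by simp
  rw [e1, e, e0, hVi M F X a0 b0 c0 d0 hdet hM y' hy', hVi M F X a0 b0 c0 d0 hdet hM y0 hy0]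

end DI.V
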