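import Pool.Agent.Lib.DI.V.Spec

/-!
# THEOREM DI, part V, module Vd: `ha` vanishes on the orbit of `0`
-/

set_option autoImplicit false

namespace DI.V

private theorem Vd_key (h : S_Vc) (M : ℕ) (F : Type) [Field F] (X : Sy M F) (r : ℚ)
    (hr : E0 M r) : ∀ a b z d : ℚ, A2 a → A2 b → A2 z → A2 d → a * d - b * (M * z) = 1 →
    X.ha ((a * r + b) / (M * z * r + d)) = X.ha (b / d) := by
  have hM : 2 ≤ M := le_trans (by norm_num) X.three
  induction hr with
  | zero =>
    intro a b z d _ _ _ _ _
    rw [mul_zero, mul_zero, zero_add, zero_add]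
  | @up r y hy hr ih =>
    intro a b z d ha hb hz hd hdet
    have hMz : A2 (M * z) := (A2.nat M).mul hz
    have e1 : (a * (r + y) + b) / (M * z * (r + y) + d) =
        (a * r + (a * y + b)) / (M * z * r + (M * z * y + d)) := by
      congr 1 <;> ring
    rw [e1, ih a (a * y + b) z (M * z * y + d) ha ((ha.mul hy).add hb) hz
      ((hMz.mul hy).add hd) (by linear_combination hdet)]
    exact h M F X a b z d ha hb hz hd hdet y hy
  | @lo r w hw hr ih =>
    intro a b z d ha hb hz hd hdet
    have hden : M * w * r + 1 ≠ 0 := hr.den hM X.odd hw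
    have e1 : (a * (r / (M * w * r + 1)) + b) / (M * z * (r / (M * w * r + 1)) + d) =
        ((a + b * (M * w)) * r + b) / (M * (z + d * w) * r + d) := by
      have e2 : a * (r / (M * w * r + 1)) + b =
          ((a + b * (M * w)) * r + b) / (M * w * r + 1) := by
        rw [eq_div_iff hden, add_mul, mul_assoc a, div_mul_cancel₀ _ hden]
        ring
      have e3 : M * z * (r / (M * w * r + 1)) + d =
          (M * (z + d * w) * r + d) / (M * w * r + 1) := by
        rw [eq_div_iff hden, add_mul, mul_assoc (M * z), div_mul_cancel₀ _ hden]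
        ring
      rw [e2, e3, div_div_div_cancel_right₀ hden]
    rw [e1]
    exact ih (a + b * (M * w)) b (z + d * w) d
      (ha.add (hb.mul ((A2.nat M).mul hw))) hb (hz.add (hd.mul hw)) hd
      (by linear_combination hdet)

/-- Module Vd. -/
theorem tVd : S_Vc → S_Vd := by
  intro h M F _ X r hr
  have h1 := Vd_key h M F X r hr 1 0 0 1 A2.one A2.zero A2.zero A2.one (by ring)
  have e1 : ((1 : ℚ) * r + 0) / (M * 0 * r + 1) = r := by
    rw [mul_zero, zero_mul, zero_add, div_one, one_mul, add_zero]
  rw [e1, zero_div] at h1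
  rw [h1]
  exact X.van 0 A2.zero

end DI.V
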