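import Pool.Agent.Lib.DI.V.Spec

set_option autoImplicit false

/-! THEOREM DI, part V, module Ve: `h` is invariant under `r ↦ r + y` on the orbit of `0`. -/

namespace DI.V

private theorem shiftNat {M : ℕ} {F : Type} [Field F] (X : Sy M F) {r : ℚ} (hr : QM M r) (n : ℕ) :
    X.h (r + n) = X.h r := by
  have hM : 2 ≤ M := by have := X.three; omega
  induction n with
  | zero => simp
  | succ n ih =>
    have h1 : r + ((n + 1 : ℕ) : ℚ) = (r + n) + 1 := by push_cast; ring
    have h2 : QM M (r + n) := by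
      have h3 : QM M ((n : ℤ) : ℚ) := QM.int n
      have h4 := hr.add hM h3
      simpa using h4
    rw [h1, X.v3 _ h2, ih]

private theorem shiftInt {M : ℕ} {F : Type} [Field F] (X : Sy M F) {r : ℚ} (hr : QM M r) (c : ℤ) :
    X.h (r + c) = X.h r := by
  have hM : 2 ≤ M := by have := X.three; omega
  obtain ⟨n, rfl | rfl⟩ := c.eq_nat_or_neg
  · simpa using shiftNat X hr n
  · have h2 : QM M (r + ((-(n : ℤ) : ℤ) : ℚ)) := hr.add hM (QM.int _)
    have h3 := shiftNat X h2 n
    rw [← h3]
    congr 1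
    push_cast
    ring

theorem tVe : S_Vd → S_Sc → S_Ve := by
  intro h1 h2 M F _ X r y hr hy
  have hM : 2 ≤ M := by have := X.three; omega
  obtain ⟨c, n, rfl⟩ := hy
  induction n generalizing r with
  | zero =>
    have h3 := shiftInt X (hr.qm hM X.odd) c
    simpa using h3
  | succ n ih =>
    have h3 : E0 M (r + c / 2 ^ (n + 1)) := E0.up ⟨c, n + 1, rfl⟩ hr
    have h4 := h1 M F X _ h3
    have h5 := h1 M F X r hr
    unfold Sy.ha at h4 h5
    have h6 : 2 * (r + (c : ℚ) / 2 ^ (n + 1)) = 2 * r + c / 2 ^ n := by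
      rw [pow_succ]
      field_simp
    rw [h6, ih (2 * r) (h2 M r hr).1] at h4
    linear_combination h4 - h5

end DI.V
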