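import Pool.Agent.Lib.DI.V.Spec

set_option autoImplicit false

namespace DI.V

private theorem vf_aux (hVd : S_Vd) (hSc : S_Sc) {M : ℕ} {F : Type} [Field F] (X : Sy M F)
    (n : ℕ) : ∀ (c : ℤ) (r : ℚ), E0 M r → X.h (r / (M * (c / 2 ^ n) * r + 1)) = X.h r := by
  have hM : 2 ≤ M := le_trans (by norm_num) X.three
  induction n with
  | zero =>
    intro c r hr
    have h1 := X.v1 1 0 (M * c) 1 (by ring) (dvd_mul_right _ _) r (hr.qm hM X.odd)
    have e1 : (((1 : ℤ) : ℚ) * r + ((0 : ℤ) : ℚ)) / (((M * c : ℤ) : ℚ) * r + ((1 : ℤ) : ℚ)) =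
        r / (M * (c / 2 ^ 0) * r + 1) := by
      push_cast
      rw [pow_zero, div_one, one_mul, add_zero]
    have e2 : (((0 : ℤ) : ℚ) / ((1 : ℤ) : ℚ)) = 0 := by simp
    have e3 : X.χ (((1 : ℤ) : ZMod M)) = 1 := by rw [Int.cast_one, map_one]
    rw [e1, e2, e3, one_mul, one_mul, sub_self] at h1
    exact sub_eq_zero.1 h1
  | succ n ih =>
    intro c r hr
    have hr2 : E0 M (r / 2) := (hSc M r hr).2
    have hA : A2 ((c : ℚ) / 2 ^ n) := ⟨c, n, rfl⟩
    have hs := E0.lo hA hr2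
    have h1 := ih c (r / 2) hr2
    have h2 := hVd M F X _ hs
    have h3 := hVd M F X _ hr2
    have e1 : 2 * (r / 2 / (M * ((c : ℚ) / 2 ^ n) * (r / 2) + 1)) =
        r / (M * ((c : ℚ) / 2 ^ (n + 1)) * r + 1) := by
      have e2 : M * ((c : ℚ) / 2 ^ n) * (r / 2) = M * ((c : ℚ) / 2 ^ (n + 1)) * r := by
        rw [pow_succ]
        field_simp
      rw [e2, ← mul_div_assoc, mul_div_cancel₀ r (two_ne_zero)]
    have e4 : 2 * (r / 2) = r := mul_div_cancel₀ r two_ne_zero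
    unfold Sy.ha at h2 h3
    rw [e1, h1] at h2
    rw [e4] at h3
    have h4 : X.kb * X.h (r / (M * ((c : ℚ) / 2 ^ (n + 1)) * r + 1)) = X.kb * X.h r := by
      have h5 := h2.trans h3.symm
      exact add_left_cancel h5
    exact mul_left_cancel₀ X.kb0 h4

theorem tVf : S_Vd → S_Sc → S_Vf := by
  intro hVd hSc M F _ X r z hr hz
  obtain ⟨c, n, rfl⟩ := hz
  exact vf_aux hVd hSc X n c r hr

end DI.V
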