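import Pool.Agent.Lib.DI.V.Spec

set_option autoImplicit false

namespace DI.V

theorem tVg : S_Ve → S_Vf → S_Vg := by
  intro he hf M F _ X r hr
  induction hr with
  | zero => rfl
  | up hy hr ih => rw [he M F X _ _ hr hy, ih]
  | lo hz hr ih => rw [hf M F X _ _ hr hz, ih]

end DI.V
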