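import Pool.Agent.Lib.DI.V.Spec

set_option autoImplicit false

namespace DI.V

section

variable {M : ℕ} {F : Type} [Field F] (X : Sy M F)

include X in
private theorem vi_two : 2 ≤ M := le_trans (by norm_num) X.three

private theorem vi_ha {y : ℚ} (hy : A2 y) : X.ha y = 0 := X.van y hy

/-- the case of even `c` -/
private theorem vi_even (hVa : S_Va) {a b c d : ℤ} (h : a * d - b * c = 1)
    (hc : 2 * (M : ℤ) ∣ c) {r : ℚ} (hr : QM M r) (h0 : X.ha r = 0) :
    X.ha ((a * r + b) / (c * r + d)) = X.ha (b / d) := by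
  have h1 := hVa M F X a b c d h hc r hr
  rw [h0, vi_ha X A2.zero, mul_zero, sub_zero, sub_zero] at h1
  exact h1

private theorem vi_R (hVb : S_Vb) {y : ℚ} (hy : A2 y) :
    (M : ℚ) * y + 1 ≠ 0 ∧ QM M (y / (M * y + 1)) ∧ X.ha (y / (M * y + 1)) = 0 := by
  have hM := vi_two X
  have hyQ : QM M y := QM.of_A2 X.odd hy
  have h1 := hyQ.one_add hM
  have h2 : QM M (y / (M * y + 1)) := by
    rw [← mul_one_div]
    exact hyQ.mul h1.2
  refine ⟨h1.1, h2, ?_⟩
  have e1 : X.h (y / (M * y + 1)) = X.h 0 := by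
    have h3 := X.v1 1 0 M 1 (by ring) (dvd_refl _) y hyQ
    push_cast at h3
    rw [one_mul, add_zero, zero_div, map_one, one_mul, one_mul, hVb M F X y hy] at h3
    rw [sub_self, sub_eq_zero] at h3
    exact h3
  obtain ⟨m, hm⟩ := X.odd
  have hm' : (M : ℚ) = 2 * m + 1 := by exact_mod_cast hm
  have e2 : X.h (2 * (y / (M * y + 1))) = X.h 0 := by
    have hdet : (2 : ℤ) * (-m) - (-1) * M = 1 := by
      rw [hm]
      push_cast
      ring
    have hr : A2 ((y + 1) / 2) := (hy.add A2.one).half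
    have hr' : A2 ((1 : ℚ) / 2) := A2.one.half
    have h3 := X.v1 2 (-1) M (-m) hdet (dvd_refl _) _ (QM.of_A2 X.odd hr)
    have h4 := X.v1 2 (-1) M (-m) hdet (dvd_refl _) _ (QM.of_A2 X.odd hr')
    rw [hVb M F X _ hr] at h3
    rw [hVb M F X _ hr'] at h4
    have e3 : ((2 : ℤ) * ((y + 1) / 2) + ((-1 : ℤ) : ℚ)) / (((M : ℤ) : ℚ) * ((y + 1) / 2) +
        ((-m : ℤ) : ℚ)) = 2 * (y / (M * y + 1)) := by
      have h5 := h1.1
      have h6 : ((M : ℤ) : ℚ) * ((y + 1) / 2) + ((-m : ℤ) : ℚ) = (M * y + 1) / 2 := by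
        push_cast
        rw [hm']
        ring
      rw [h6]
      push_cast
      field_simp
      ring
    have e4 : ((2 : ℤ) * ((1 : ℚ) / 2) + ((-1 : ℤ) : ℚ)) / (((M : ℤ) : ℚ) * (1 / 2) +
        ((-m : ℤ) : ℚ)) = 0 := by
      push_cast
      norm_num
    rw [e3] at h3
    rw [e4] at h4
    rw [← h4] at h3
    exact sub_left_injective h3
  have h5 := X.van 0 A2.zero
  rw [mul_zero] at h5
  unfold Sy.ha
  rw [e1, e2]
  exact h5

/-- the case of odd `c` and odd `d` -/
private theorem vi_odd (hVa : S_Va) (hVb : S_Vb) {a b c d : ℤ} (h : a * d - b * c = 1)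
    (hc : (M : ℤ) ∣ c) (hc2 : Odd c) (hd2 : Odd d) {y : ℚ} (hy : A2 y) :
    X.ha ((a * y + b) / (c * y + d)) = X.ha (b / d) := by
  obtain ⟨h1, h2, h3⟩ := vi_R X hVb hy
  have hMo : Odd (M : ℤ) := by exact_mod_cast X.odd
  have hdet : (a - b * M) * d - b * (c - d * M) = 1 := by linarith
  have hdv : 2 * (M : ℤ) ∣ c - d * M := by
    have h4 : (2 : ℤ) ∣ c - d * M := (hc2.sub_odd (hd2.mul hMo)).two_dvd
    have h5 : (M : ℤ) ∣ c - d * M := dvd_sub hc (dvd_mul_left _ _)
    have h6 : IsCoprime (2 : ℤ) (M : ℤ) := by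
      have h7 : Nat.Coprime 2 M := Nat.coprime_two_left.2 X.odd
      exact_mod_cast Nat.isCoprime_iff_coprime.2 h7
    exact h6.mul_dvd h4 h5
  have h4 := vi_even X hVa hdet hdv h2 h3
  have e : (((a - b * M : ℤ) : ℚ) * (y / (M * y + 1)) + b) /
      (((c - d * M : ℤ) : ℚ) * (y / (M * y + 1)) + d) = (a * y + b) / (c * y + d) := by
    have e1 : ((a - b * M : ℤ) : ℚ) * (y / (M * y + 1)) + b = (a * y + b) / (M * y + 1) := by
      push_cast
      field_simp
      ring
    have e2 : ((c - d * M : ℤ) : ℚ) * (y / (M * y + 1)) + d = (c * y + d) / (M * y + 1) := by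
      push_cast
      field_simp
      ring
    rw [e1, e2, div_div_div_cancel_right₀ h1]
  rw [e] at h4
  exact h4

end

theorem tVi : S_Va → S_Vb → S_Vi := by
  intro hVa hVb M F _ X a b c d h hc y hy
  rcases Int.even_or_odd c with hc2 | hc2
  · have hdv : 2 * (M : ℤ) ∣ c := by
      have h6 : IsCoprime (2 : ℤ) (M : ℤ) := by
        have h7 : Nat.Coprime 2 M := Nat.coprime_two_left.2 X.odd
        exact_mod_cast Nat.isCoprime_iff_coprime.2 h7
      exact h6.mul_dvd hc2.two_dvd hc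
    exact vi_even X hVa h hdv (QM.of_A2 X.odd hy) (vi_ha X hy)
  · rcases Int.even_or_odd d with hd2 | hd2
    · have hdet : a * (d - c) - (b - a) * c = 1 := by linarith
      have hd3 : Odd (d - c) := hd2.sub_odd hc2
      have key : ∀ z : ℚ, A2 z → X.ha ((a * z + b) / (c * z + d)) =
          X.ha (((b - a : ℤ) : ℚ) / ((d - c : ℤ) : ℚ)) := by
        intro z hz
        have h1 := vi_odd X hVa hVb hdet hc hc2 hd3 (hz.add A2.one)
        have e : ((a : ℚ) * (z + 1) + ((b - a : ℤ) : ℚ)) / ((c : ℚ) * (z + 1) +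
            ((d - c : ℤ) : ℚ)) = (a * z + b) / (c * z + d) := by
          push_cast
          ring_nf
        rw [e] at h1
        exact h1
      rw [key y hy]
      have h2 := key 0 A2.zero
      rw [mul_zero, mul_zero, zero_add, zero_add] at h2
      exact h2.symm
    · exact vi_odd X hVa hVb h hc hc2 hd2 hy

end DI.V
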