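import Pool.Agent.Lib.DI.V.Va
import Pool.Agent.Lib.DI.V.Vb
import Pool.Agent.Lib.DI.V.Vi
import Pool.Agent.Lib.DI.V.Dec
import Pool.Agent.Lib.DI.V.Vc
import Pool.Agent.Lib.DI.V.Vd
import Pool.Agent.Lib.DI.V.Sc
import Pool.Agent.Lib.DI.V.Ve
import Pool.Agent.Lib.DI.V.Vf
import Pool.Agent.Lib.DI.V.Vg
import Pool.Agent.Lib.DI.V.Pw
import Pool.Agent.Lib.DI.V.Ch
import Pool.Agent.Lib.DI.V.Pr
import Pool.Agent.Lib.DI.V.Ex
import Pool.Agent.Lib.DI.V.StP
import Pool.Agent.Lib.DI.V.St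
import Pool.Agent.Lib.DI.V.V

/-!
# THEOREM DI, part V: assembly (author helper97)
-/

set_option autoImplicit false

namespace DI.V

/-- The orbit of `0` contains every `b/d`, `d ≡ 1` modulo `M`. -/
theorem star : S_St := tSt (tStP tPw tCh tPr tEx tSc) tSc

/-- THEOREM V: the function `h` takes the value `h 0` at `b/d = g 0` for all `g ∈ Γ₁(M)`. -/
theorem main : S_V :=
  have vd : S_Vd := tVd (tVc (tVi tVa tVb) tDec)
  tV (tVg (tVe vd tSc) (tVf vd tSc)) star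

end DI.V
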