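import Mathlib

/-!
# THEOREM DI, part V (symbols), definitions and basic facts (author helper97)

`A2` is the ring `ℤ[1/2]`, `QM M` the ring of the rational numbers with denominator prime to `M`,
`E0 M` the orbit of `0` under the group generated by `r ↦ r + y` and `r ↦ r / (M z r + 1)`,
`y, z ∈ ℤ[1/2]`.
-/

set_option autoImplicit false

namespace DI.V

/-- `y ∈ ℤ[1/2]`. -/
def A2 (y : ℚ) : Prop := ∃ (c : ℤ) (n : ℕ), y = c / 2 ^ n

/-- The rational numbers with denominator prime to `M`. -/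
def QM (M : ℕ) (r : ℚ) : Prop := ∃ p q : ℤ, IsCoprime q (M : ℤ) ∧ r = p / q

/-- The orbit of `0`. -/
inductive E0 (M : ℕ) : ℚ → Prop
  | zero : E0 M 0
  | up {r y : ℚ} : A2 y → E0 M r → E0 M (r + y)
  | lo {r z : ℚ} : A2 z → E0 M r → E0 M (r / (M * z * r + 1))

/-- The data of part V: a function `h` which transforms under `Γ₀(M)` with the character `χ`, is
invariant under `r ↦ r + 1`, and satisfies `h y + kb h (2 y) = 0` on `ℤ[1/2]`. -/
structure Sy (M : ℕ) (F : Type) [Field F] where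
  h : ℚ → F
  χ : MulChar (ZMod M) F
  kb : F
  odd : Odd M
  three : 3 ≤ M
  kb0 : kb ≠ 0
  v1 : ∀ a b c d : ℤ, a * d - b * c = 1 → (M : ℤ) ∣ c → ∀ r : ℚ, QM M r →
    h ((a * r + b) / (c * r + d)) - χ (d : ZMod M) * h r = h (b / d) - χ (d : ZMod M) * h 0
  v3 : ∀ r : ℚ, QM M r → h (r + 1) = h r
  van : ∀ y : ℚ, A2 y → h y + kb * h (2 * y) = 0

/-- `h r + kb h (2 r)` -/
def Sy.ha {M : ℕ} {F : Type} [Field F] (X : Sy M F) (r : ℚ) : F := X.h r + X.kb * X.h (2 * r)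

/-! ### The ring `ℤ[1/2]` -/

namespace A2

theorem int (c : ℤ) : A2 c := ⟨c, 0, by simp⟩

theorem zero : A2 0 := ⟨0, 0, by simp⟩

theorem one : A2 1 := ⟨1, 0, by simp⟩

theorem nat (c : ℕ) : A2 c := ⟨c, 0, by simp⟩

theorem add {x y : ℚ} (hx : A2 x) (hy : A2 y) : A2 (x + y) := by
  obtain ⟨c, n, rfl⟩ := hx
  obtain ⟨c', n', rfl⟩ := hy
  refine ⟨c * 2 ^ n' + c' * 2 ^ n, n + n', ?_⟩
  push_cast
  rw [pow_add]
  field_simp

theorem neg {x : ℚ} (hx : A2 x) : A2 (-x) := by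
  obtain ⟨c, n, rfl⟩ := hx
  exact ⟨-c, n, by push_cast; ring⟩

theorem sub {x y : ℚ} (hx : A2 x) (hy : A2 y) : A2 (x - y) := by
  rw [sub_eq_add_neg]
  exact hx.add hy.neg

theorem mul {x y : ℚ} (hx : A2 x) (hy : A2 y) : A2 (x * y) := by
  obtain ⟨c, n, rfl⟩ := hx
  obtain ⟨c', n', rfl⟩ := hy
  refine ⟨c * c', n + n', ?_⟩
  push_cast
  rw [pow_add]
  field_simp

theorem half {x : ℚ} (hx : A2 x) : A2 (x / 2) := by
  obtain ⟨c, n, rfl⟩ := hx
  refine ⟨c, n + 1, ?_⟩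
  rw [pow_succ]
  field_simp

theorem two_mul {x : ℚ} (hx : A2 x) : A2 (2 * x) := (A2.int 2).mul hx

theorem div_pow {x : ℚ} (hx : A2 x) (n : ℕ) : A2 (x / 2 ^ n) := by
  induction n with
  | zero => simpa using hx
  | succ n ih =>
    have h : x / 2 ^ (n + 1) = x / 2 ^ n / 2 := by
      rw [pow_succ]
      field_simp
    rw [h]
    exact ih.half

end A2

/-! ### The ring `QM M` -/

namespace QM

variable {M : ℕ}

theorem int (c : ℤ) : QM M c := ⟨c, 1, isCoprime_one_left, by simp⟩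

theorem zero : QM M 0 := ⟨0, 1, isCoprime_one_left, by simp⟩

theorem one : QM M 1 := ⟨1, 1, isCoprime_one_left, by simp⟩

theorem ne_zero (hM : 2 ≤ M) {q : ℤ} (h : IsCoprime q (M : ℤ)) : (q : ℚ) ≠ 0 := by
  intro h0
  have h1 : q = 0 := by exact_mod_cast h0
  rw [h1, isCoprime_zero_left, Int.isUnit_iff] at h
  omega

theorem add (hM : 2 ≤ M) {x y : ℚ} (hx : QM M x) (hy : QM M y) : QM M (x + y) := by
  obtain ⟨p, q, h, rfl⟩ := hx
  obtain ⟨p', q', h', rfl⟩ := hy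
  have h1 := ne_zero hM h
  have h2 := ne_zero hM h'
  refine ⟨p * q' + p' * q, q * q', IsCoprime.mul_left h h', ?_⟩
  push_cast
  field_simp

theorem mul {x y : ℚ} (hx : QM M x) (hy : QM M y) : QM M (x * y) := by
  obtain ⟨p, q, h, rfl⟩ := hx
  obtain ⟨p', q', h', rfl⟩ := hy
  refine ⟨p * p', q * q', IsCoprime.mul_left h h', ?_⟩
  push_cast
  rw [div_mul_div_comm]

theorem neg {x : ℚ} (hx : QM M x) : QM M (-x) := by
  obtain ⟨p, q, h, rfl⟩ := hx
  exact ⟨-p, q, h, by push_cast; ring⟩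

theorem sub (hM : 2 ≤ M) {x y : ℚ} (hx : QM M x) (hy : QM M y) : QM M (x - y) := by
  rw [sub_eq_add_neg]
  exact hx.add hM hy.neg

theorem of_A2 (hM : Odd M) {x : ℚ} (hx : A2 x) : QM M x := by
  obtain ⟨c, n, rfl⟩ := hx
  refine ⟨c, 2 ^ n, IsCoprime.pow_left ?_, by push_cast; rfl⟩
  have h : Nat.Coprime 2 M := Nat.coprime_two_left.2 hM
  exact_mod_cast Nat.isCoprime_iff_coprime.2 h

/-- `1 + M x` is a unit of `QM M`. -/
theorem one_add (hM : 2 ≤ M) {x : ℚ} (hx : QM M x) : M * x + 1 ≠ 0 ∧ QM M (1 / (M * x + 1)) := by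
  obtain ⟨p, q, h, rfl⟩ := hx
  have h1 := ne_zero hM h
  have h2 : IsCoprime ((M : ℤ) * p + q) (M : ℤ) := by
    have h3 := h.add_mul_right_left p
    rwa [add_comm, mul_comm p] at h3
  have h3 := ne_zero hM h2
  push_cast at h3
  have h4 : (M : ℚ) * (p / q) + 1 = (M * p + q) / q := by
    field_simp
  rw [h4]
  refine ⟨div_ne_zero h3 h1, q, M * p + q, h2, ?_⟩
  push_cast
  field_simp

/-- The Moebius transformations act on `QM M`; `d` is a unit. -/
theorem mob (hM : 2 ≤ M) {a b z d r : ℚ} (ha : QM M a) (hb : QM M b) (hz : QM M z) (hd : QM M d)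
    (hr : QM M r) (h : a * d - b * (M * z) = 1) :
    d ≠ 0 ∧ M * z * r + d ≠ 0 ∧ QM M ((a * r + b) / (M * z * r + d)) := by
  have h1 := (hb.mul hz).one_add hM
  have e1 : a * d = M * (b * z) + 1 := by linarith
  have h2 : d ≠ 0 := by
    rintro rfl
    rw [mul_zero] at e1
    exact h1.1 e1.symm
  have h3 : QM M (1 / d) := by
    have e2 : 1 / d = a * (1 / (M * (b * z) + 1)) := by
      rw [← e1]
      have h4 : a ≠ 0 := by
        rintro rfl
        rw [zero_mul] at e1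
        exact h1.1 e1.symm
      field_simp
    rw [e2]
    exact ha.mul h1.2
  have h4 := ((hz.mul hr).mul h3).one_add hM
  have e3 : M * z * r + d = d * (M * (z * r * (1 / d)) + 1) := by
    field_simp
  refine ⟨h2, ?_, ?_⟩
  · rw [e3]
    exact mul_ne_zero h2 h4.1
  · have e4 : (a * r + b) / (M * z * r + d) =
        (a * r + b) * (1 / d) * (1 / (M * (z * r * (1 / d)) + 1)) := by
      rw [e3]
      have := h4.1
      field_simp
    rw [e4]
    exact (((ha.mul hr).add hM hb).mul h3).mul h4.2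

/-- The integral case. -/
theorem mobZ (hM : 2 ≤ M) {a b c d : ℤ} {r : ℚ} (h : a * d - b * c = 1) (hc : (M : ℤ) ∣ c)
    (hr : QM M r) :
    (d : ℚ) ≠ 0 ∧ (c : ℚ) * r + d ≠ 0 ∧ QM M ((a * r + b) / (c * r + d)) := by
  obtain ⟨z, rfl⟩ := hc
  have h1 := mob hM (int a) (int b) (int z) (int d) hr (by
    have h2 : ((a * d - b * (M * z) : ℤ) : ℚ) = 1 := by exact_mod_cast h
    push_cast at h2
    exact h2)
  push_cast
  exact h1

end QM

/-- The orbit of `0` is contained in `QM M`. -/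
theorem E0.qm {M : ℕ} (hM : 2 ≤ M) (ho : Odd M) {r : ℚ} (h : E0 M r) : QM M r := by
  induction h with
  | zero => exact QM.zero
  | up hy _ ih => exact ih.add hM (QM.of_A2 ho hy)
  | @lo r z hz _ ih =>
    have h1 := ((QM.of_A2 ho hz).mul ih).one_add hM
    have e : r / (M * z * r + 1) = r * (1 / (M * (z * r) + 1)) := by
      rw [mul_assoc, mul_one_div]
    rw [e]
    exact ih.mul h1.2

/-- The denominators in `E0.lo`. -/
theorem E0.den {M : ℕ} (hM : 2 ≤ M) (ho : Odd M) {r z : ℚ} (h : E0 M r) (hz : A2 z) :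
    M * z * r + 1 ≠ 0 := by
  have h1 := ((QM.of_A2 ho hz).mul (h.qm hM ho)).one_add hM
  rw [mul_assoc]
  exact h1.1

end DI.V
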