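import Pool.Agent.Lib.DI.V.Base

/-!
# THEOREM DI, part V: the statements (author helper97)

Every statement `S_X` is proved in the module `Pool/Agent/Lib/DI/V/X.lean`; the proofs are in the
comments. Notation: `g = (a b; c d)` acts by `g r = (a r + b) / (c r + d)`,
`ha r = h r + kb h (2 r)`.

Use the facts of `Base.lean`: `QM.mobZ` and `QM.mob` give the denominators different from `0` and
the membership in `QM M`, `QM.of_A2` (`A2 ⊆ QM`), `E0.qm`, `E0.den`.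
-/

set_option autoImplicit false

namespace DI.V

/-- For `g ∈ Γ₀(2M)` the function `ha` transforms under `g`.

Proof. `2 (g r) = g' (2 r)` with `g' = (a 2b; c/2 d)`, of determinant `1`, and `M ∣ c/2`. Apply `v1`
to `g` at `r` and to `g'` at `2 r` (`QM M (2 r)`), add the first and `kb` times the second; at
`r = 0`: `2 (b/d) = (2b)/d`. -/
def S_Va : Prop :=
  ∀ (M : ℕ) (F : Type) [Field F] (X : Sy M F) (a b c d : ℤ), a * d - b * c = 1 →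
    2 * (M : ℤ) ∣ c → ∀ r : ℚ, QM M r →
    X.ha ((a * r + b) / (c * r + d)) - X.χ (d : ZMod M) * X.ha r =
      X.ha (b / d) - X.χ (d : ZMod M) * X.ha 0

/-- `h` is constant on `ℤ[1/2]`.

Proof. `v3` gives `h c = h 0` for the integers `c` (induction). `van` gives
`h (c/2^n) = (-kb)^n h c` (induction on `n`: `h (c/2^(n+1)) = -kb h (c/2^n)`), and
`(1 + kb) h 0 = 0`. If `h 0 = 0` then `h (c/2^n) = 0`; otherwise `-kb = 1`. -/
def S_Vb : Prop :=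
  ∀ (M : ℕ) (F : Type) [Field F] (X : Sy M F) (y : ℚ), A2 y → X.h y = X.h 0

/-- For `g ∈ Γ₀(M)` the function `y ↦ ha (g y)` is constant on `ℤ[1/2]`.

Proof. `ha y = 0` for `y ∈ A2` (`van`). (1) `c` even: `2 M ∣ c` (`M` is odd), and `S_Va` at `r = y`
gives the claim. (2) `c` and `d` odd. First `ha (y/(M y + 1)) = 0`: `v1` for `(1 0; M 1)` at `y`
gives `h (y/(M y + 1)) = h y = h 0` (`S_Vb`), and `v1` for `g' = (2 -1; M (1-M)/2)` (determinant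
`1`) at `(y+1)/2`, where `g' ((y+1)/2) = 2 y/(M y + 1)`, and at `1/2`, where `g' (1/2) = 0`, gives
`h (2 y/(M y + 1)) = h 0`, as `h ((y+1)/2) = h (1/2)` by `S_Vb`. So
`ha (y/(M y + 1)) = h 0 + kb h 0 = ha 0 = 0`. Now let `g1 = (a - b M, b; c - d M, d)`, of
determinant `1`, with `2 M ∣ c - d M`; `g y = g1 (y/(M y + 1))` and `S_Va` for `g1` at
`r = y/(M y + 1)` gives `ha (g y) = ha (b/d)`. (3) `c` odd and `d` even: `g2 = (a, b - a; c, d - c)`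
has `d - c` odd and `g y = g2 (y + 1)`, so by (2) `ha (g y) = ha ((b-a)/(d-c))` for all `y ∈ A2`,
also for `y = 0`. -/
def S_Vi : Prop :=
  ∀ (M : ℕ) (F : Type) [Field F] (X : Sy M F) (a b c d : ℤ), a * d - b * c = 1 →
    (M : ℤ) ∣ c → ∀ y : ℚ, A2 y → X.ha ((a * y + b) / (c * y + d)) = X.ha (b / d)

/-- A matrix of determinant `1` over `ℤ[1/2]` with lower left entry in `M ℤ[1/2]` acts on
`ℤ[1/2]` as an integral one, up to an affine map.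

Proof. Common denominator: `a = a1/2^n`, `b = b1/2^n`, `z = z1/2^n`, `d = d1/2^n` with integers,
`a1 d1 - b1 M z1 = 4^n`. The gcd of `a1` and `M z1` divides `2^(2n)`, so it is `2^i`, `i ≤ 2n`:
`a1 = 2^i a0`, `M z1 = 2^i c0`, `a0` and `c0` coprime, `M ∣ c0` (`M` is odd). Take integers with
`a0 d0 - b0 c0 = 1`. Then `a0 d1 - c0 b1 = 2^(2n-i)`, and for `y ∈ A2` put
`y' = (2^i y + d0 b1 - b0 d1)/2^(2n-i)`: `a0 y' + b0 = (a1 y + b1)/2^(2n-i)` and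
`c0 y' + d0 = (M z1 y + d1)/2^(2n-i)`. -/
def S_Dec : Prop :=
  ∀ M : ℕ, Odd M → ∀ a b z d : ℚ, A2 a → A2 b → A2 z → A2 d → a * d - b * (M * z) = 1 →
    ∃ a0 b0 c0 d0 : ℤ, a0 * d0 - b0 * c0 = 1 ∧ (M : ℤ) ∣ c0 ∧ ∀ y : ℚ, A2 y →
      ∃ y' : ℚ, A2 y' ∧ (a * y + b) / (M * z * y + d) = (a0 * y' + b0) / (c0 * y' + d0)

/-- The same over `ℤ[1/2]`.

Proof. `S_Dec`, and `S_Vi` at `y'` for `y` and at the `y'` for `0` (both sides are
`ha (b0/d0)`). -/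
def S_Vc : Prop :=
  ∀ (M : ℕ) (F : Type) [Field F] (X : Sy M F) (a b z d : ℚ), A2 a → A2 b → A2 z → A2 d →
    a * d - b * (M * z) = 1 → ∀ y : ℚ, A2 y →
    X.ha ((a * y + b) / (M * z * y + d)) = X.ha (b / d)

/-- `ha` vanishes on the orbit of `0`.

Proof. By induction on `E0 M r` (`k = (a b; M z d)` arbitrary) `ha (k r) = ha (b/d)`: `zero` is
trivial; `up`: `k (r + y) = k' r`, `k' = (a, a y + b; M z, M z y + d)`, so
`ha (k (r + y)) = ha ((a y + b)/(M z y + d)) = ha (b/d)` by `S_Vc`; `lo`: with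
`s = r/(M w r + 1)`, `k s = k' r`, `k' = (a + b M w, b; M (z + d w), d)` (use `E0.den`). With
`k = 1`: `ha r = ha 0 = 0` (`van`). -/
def S_Vd : Prop :=
  ∀ (M : ℕ) (F : Type) [Field F] (X : Sy M F) (r : ℚ), E0 M r → X.ha r = 0

/-- The orbit of `0` is stable under `r ↦ 2 r` and `r ↦ r/2`.

Proof. Induction: `2 (r + y) = 2 r + 2 y`, `2 (r/(M z r + 1)) = (2 r)/(M (z/2) (2 r) + 1)`,
`(r/(M z r + 1))/2 = (r/2)/(M (2 z) (r/2) + 1)`. -/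
def S_Sc : Prop := ∀ (M : ℕ) (r : ℚ), E0 M r → E0 M (2 * r) ∧ E0 M (r / 2)

/-- `h` is invariant under `r ↦ r + y` on the orbit of `0`.

Proof. `h s = -kb h (2 s)` for `s ∈ E0` (`S_Vd`). By induction on `n`:
`h (r + c/2^n) = h r` for all `r ∈ E0` and `c ∈ ℤ`; `n = 0` by `v3` (and `E0.qm`), and
`h (r + c/2^(n+1)) = -kb h (2 r + c/2^n) = -kb h (2 r) = h r` (`S_Sc`). -/
def S_Ve : Prop :=
  ∀ (M : ℕ) (F : Type) [Field F] (X : Sy M F) (r y : ℚ), E0 M r → A2 y → X.h (r + y) = X.h r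

/-- `h` is invariant under `r ↦ r/(M z r + 1)` on the orbit of `0`.

Proof. By induction on `n`, for `z = c/2^n` and all `r ∈ E0`. `n = 0`: `v1` for `(1 0; M c 1)`.
`n + 1`: with `s = (r/2)/(M (c/2^n) (r/2) + 1)` we have `2 s = r/(M (c/2^(n+1)) r + 1)`,
`h s = h (r/2)`, `h s = -kb h (2 s)` and `h (r/2) = -kb h r` (`S_Vd`, `S_Sc`), and `kb ≠ 0`. -/
def S_Vf : Prop :=
  ∀ (M : ℕ) (F : Type) [Field F] (X : Sy M F) (r z : ℚ), E0 M r → A2 z →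
    X.h (r / (M * z * r + 1)) = X.h r

/-- `h` is constant on the orbit of `0`. Proof: induction, `S_Ve` and `S_Vf`. -/
def S_Vg : Prop :=
  ∀ (M : ℕ) (F : Type) [Field F] (X : Sy M F) (r : ℚ), E0 M r → X.h r = X.h 0

/-- The powers of `2` fill the classes `≡ 1` modulo `p^s`.

Proof. `e ≤ s`: `k = 0`. Induction on `e ≥ s`: let `2^k = x + p^e w`. The number
`v = 2^((p-1) p^(e-s))` satisfies `v = 1 + p^e u'`, `p ∤ u'` (lifting the exponent,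
`Int.emultiplicity_pow_sub_pow` for `2^(p-1)`, `1` and `p^(e-s)`; `p` is odd), and
`2^k v^t ≡ x + p^e (w + t u' x)` modulo `p^(e+1)`; `p ∤ u' x` (`x ≡ 1` modulo `p`), so there is `t`
with `p ∣ w + t u' x`. -/
def S_Pw : Prop :=
  ∀ p : ℕ, p.Prime → p ≠ 2 → ∀ (s : ℕ) (u x : ℤ), 1 ≤ s → ¬ (p : ℤ) ∣ u →
    (2 : ℤ) ^ (p - 1) = 1 + p ^ s * u → (p : ℤ) ^ s ∣ x - 1 → ∀ e : ℕ,
    ∃ k : ℕ, (p : ℤ) ^ e ∣ 2 ^ k - x

/-- Proof. `2` is not a square modulo `p` (`ZMod.exists_sq_eq_two_iff`). If `b` is a square modulo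
`p` then so is `4 b`, otherwise `2 b` and `8 b` are squares (`quadraticChar` or Euler). In both
cases not both numbers `b'`, `4 b'` are `≡ 1` modulo `p`, since `p ≠ 3`. -/
def S_Ch : Prop :=
  ∀ p : ℕ, p.Prime → p % 8 = 5 → ∀ b : ℤ, ¬ (p : ℤ) ∣ b →
    ∃ j : ℕ, IsSquare ((2 ^ j * b : ℤ) : ZMod p) ∧ ¬ (p : ℤ) ∣ 2 ^ j * b - 1

/-- Two primes.

Proof. Dirichlet (`Nat.forall_exists_prime_gt_and_zmodEq` or
`Nat.forall_exists_prime_gt_and_eq_mod`): a prime `q1 > M`, `q1 ≡ b` modulo `p^s`, `q1 ≡ 3` modulo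
`4`. Let `n1 = (q1 - 1)/2`; it is odd, and prime to `p`, because `q1 - 1 ≡ b - 1` modulo `p`. So
`4`, `p^s`, `n1` are pairwise coprime, and there is a prime `q2 > M` with `q2 ≡ 3` modulo `4`,
`q2 ≡ b` modulo `p^s`, `q2 ≡ 2` modulo `n1`. A common divisor of `n1` and `(q2 - 1)/2` divides
`q2 - 1` and `q2 - 2`. -/
def S_Pr : Prop :=
  ∀ p : ℕ, p.Prime → p ≠ 2 → ∀ (s : ℕ) (b : ℤ), 1 ≤ s → ¬ (p : ℤ) ∣ b → ¬ (p : ℤ) ∣ b - 1 →
    ∀ M : ℕ, ∃ q1 q2 : ℕ, q1.Prime ∧ q2.Prime ∧ M < q1 ∧ M < q2 ∧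
      (p : ℤ) ^ s ∣ q1 - b ∧ (p : ℤ) ^ s ∣ q2 - b ∧ q1 % 4 = 3 ∧ q2 % 4 = 3 ∧
      ((q1 - 1) / 2).Coprime ((q2 - 1) / 2)

/-- The exponent.

Proof. `q1` and `q2` are squares modulo `p`, so `p` is a square modulo `q1` and `q2`
(`ZMod.exists_sq_eq_prime_iff_of_mod_four_eq_one`), not `0` (`p ≠ qi`, modulo `4`), so
`p^((qi-1)/2) ≡ 1` modulo `qi` (`ZMod.euler_criterion`). Take `e ≥ 1`, `e ≡ 1` modulo
`(q1 - 1)/2` and `e ≡ 0` modulo `(q2 - 1)/2` (`Nat.chineseRemainder`). -/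
def S_Ex : Prop :=
  ∀ p q1 q2 : ℕ, p.Prime → q1.Prime → q2.Prime → p % 4 = 1 → q1 % 4 = 3 → q2 % 4 = 3 →
    IsSquare (q1 : ZMod p) → IsSquare (q2 : ZMod p) →
    ((q1 - 1) / 2).Coprime ((q2 - 1) / 2) →
    ∃ e : ℕ, 1 ≤ e ∧ (q1 : ℤ) ∣ (p : ℤ) ^ e - p ∧ (q2 : ℤ) ∣ (p : ℤ) ^ e - 1

/-- The case of a prime `p ≡ 5` modulo `8`, `p ≡ 1` modulo `M`.

Proof. `p - 1 ≥ 1`, `p ∣ 2^(p-1) - 1 ≠ 0`: `2^(p-1) = 1 + p^s u`, `s ≥ 1`, `p ∤ u`. `S_Ch` gives `j`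
and `b' = 2^j b`; `S_Pr` for `b'`, `s` gives `q1`, `q2`; `S_Ex` gives `e`. (1) `E0 M (q2/p^e)`:
`q2` and `M` divide `p^e - 1` and are coprime (`q2 > M`), so `p^e = M z q2 + 1`: `zero`, `up`, `lo`.
(2) Let `E = max e s`; take `x` with `x q1 ≡ q2` modulo `p^E` (`q1` is prime to `p`); then
`x ≡ 1` modulo `p^s`, and `S_Pw` gives `k` with `2^k q1 ≡ x q1 ≡ q2` modulo `p^e`, so
`E0 M (2^k q1/p^e)` by `up`. (3) `E0 M (q1/p^e)` by `S_Sc` (`k` times). (4) `E0 M (q1/p)`: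
`p^e - p = M q1 w`, `q1/p = (q1/p^e)/(M (-w) (q1/p^e) + 1)`. (5) `E0 M (b'/p)` by `up`
(`p ∣ b' - q1`). (6) `E0 M (b/p)` by `S_Sc` (`j` times). -/
def S_StP : Prop :=
  ∀ M : ℕ, Odd M → 3 ≤ M → ∀ p : ℕ, p.Prime → p % 8 = 5 → (M : ℤ) ∣ p - 1 →
    ∀ b : ℤ, ¬ (p : ℤ) ∣ b → E0 M (b / p)

/-- Every `b/d` with `d ≡ 1` modulo `M` is in the orbit of `0`.

Proof. `b = 0`: `zero`. Otherwise `b = 2^i b0` with `b0` odd, and by `S_Sc` (`i` times) it is enough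
that `E0 M (b0/d)`. `8` and `M b0` are coprime and `d` is prime to `M b0`; by Dirichlet there is a
prime `p ≡ d` modulo `M b0`, `p ≡ 5` modulo `8`: `d = p - M b0 w`, and
`b0/d = (b0/p)/(M (-w) (b0/p) + 1)` (`d ≠ 0`); `p ∤ b0` and `M ∣ p - 1`: `S_StP`. -/
def S_St : Prop :=
  ∀ M : ℕ, Odd M → 3 ≤ M → ∀ b d : ℤ, IsCoprime b d → (M : ℤ) ∣ d - 1 → E0 M (b / d)

/-- THEOREM V. Proof: `S_Vg` and `S_St`. -/
def S_V : Prop :=
  ∀ (M : ℕ) (F : Type) [Field F] (X : Sy M F) (a b c d : ℤ), a * d - b * c = 1 → (M : ℤ) ∣ c →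
    (M : ℤ) ∣ d - 1 → X.h (b / d) = X.h 0

end DI.V
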