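import Pool.Agent.Lib.DI.V.Spec

set_option autoImplicit false

namespace DI.V

private theorem scPow (hS : S_Sc) (M : ℕ) (r : ℚ) (h : E0 M r) (i : ℕ) : E0 M (2 ^ i * r) := by
  induction i with
  | zero => simpa using h
  | succ i ih =>
    have h1 := (hS M _ ih).1
    have e : (2 : ℚ) ^ (i + 1) * r = 2 * (2 ^ i * r) := by
      rw [pow_succ]
      ring
    rw [e]
    exact h1

private theorem dirichlet (M : ℕ) (hM : Odd M) (b d : ℤ) (hb : Odd b) (hb0 : b ≠ 0)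
    (hM0 : M ≠ 0) (h : IsCoprime b d) (hd : (M : ℤ) ∣ d - 1) :
    ∃ p : ℕ, p.Prime ∧ p % 8 = 5 ∧ ((M : ℤ) * b) ∣ p - d ∧ b.natAbs < p := by
  have h2M : IsCoprime (2 : ℤ) (M : ℤ) := by
    have h1 : Nat.Coprime 2 M := Nat.coprime_two_left.2 hM
    exact_mod_cast Nat.isCoprime_iff_coprime.2 h1
  have h2b : IsCoprime (2 : ℤ) b := by
    obtain ⟨k, hk⟩ := hb
    exact ⟨-k, 1, by rw [hk]; ring⟩
  have h8 : IsCoprime (8 : ℤ) ((M : ℤ) * b) := by
    have h3 : IsCoprime ((2 : ℤ) ^ 3) ((M : ℤ) * b) := (h2M.mul_right h2b).pow_left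
    norm_num at h3
    exact h3
  have hdM : IsCoprime d (M : ℤ) := by
    obtain ⟨k, hk⟩ := hd
    exact ⟨1, -k, by linarith⟩
  have hdm : IsCoprime d ((M : ℤ) * b) := hdM.mul_right h.symm
  obtain ⟨u, v, huv⟩ := h8
  set m : ℤ := (M : ℤ) * b with hm
  have hm0 : m ≠ 0 := mul_ne_zero (by exact_mod_cast hM0) hb0
  set a : ℤ := d * u * 8 + 5 * v * m with ha
  have ha1 : a = d + m * ((5 - d) * v) := by
    rw [ha]
    linear_combination d * huv
  have ha2 : a = 5 + 8 * ((d - 5) * u) := by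
    rw [ha]
    linear_combination 5 * huv
  have hcm : IsCoprime a m := by
    rw [ha1]
    exact hdm.add_mul_left_left _
  have hc8 : IsCoprime a 8 := by
    have h5 : IsCoprime (5 : ℤ) 8 := ⟨-3, 2, by norm_num⟩
    rw [ha2]
    exact h5.add_mul_left_left _
  have hc : IsCoprime a (8 * m) := hc8.mul_right hcm
  have hN : ((8 * m).natAbs : ℕ) ≠ 0 := by
    rw [Int.natAbs_ne_zero]
    exact mul_ne_zero (by norm_num) hm0
  have hcN : IsCoprime a (((8 * m).natAbs : ℕ) : ℤ) := by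
    rcases Int.natAbs_eq (8 * m) with e | e
    · rw [← e]
      exact hc
    · have e2 : (((8 * m).natAbs : ℕ) : ℤ) = -(8 * m) := by omega
      rw [e2]
      exact hc.neg_right
  obtain ⟨p, hp1, hp2, hp3⟩ := Nat.forall_exists_prime_gt_and_zmodEq b.natAbs hN hcN
  have hdv : (8 * m) ∣ (p : ℤ) - a := by
    have h5 := (Int.modEq_iff_dvd.1 hp3.symm)
    exact (Int.natAbs_dvd.1 h5)
  refine ⟨p, hp2, ?_, ?_, hp1⟩
  · have h6 : (8 : ℤ) ∣ (p : ℤ) - a := (Dvd.intro _ rfl).trans hdv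
    omega
  · have h7 : m ∣ (p : ℤ) - a := (Dvd.intro_left _ rfl).trans hdv
    obtain ⟨k, hk⟩ := h7
    refine ⟨k + (5 - d) * v, ?_⟩
    have : (p : ℤ) = a + m * k := by linarith
    rw [this, ha1]
    ring

private theorem odd_case (hP : S_StP) (M : ℕ) (hM : Odd M) (h3 : 3 ≤ M) (b d : ℤ) (hb : Odd b)
    (h : IsCoprime b d) (hd : (M : ℤ) ∣ d - 1) : E0 M (b / d) := by
  have hb0 : b ≠ 0 := by
    rintro rfl
    exact absurd hb (by decide)
  have hd0 : d ≠ 0 := by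
    rintro rfl
    have h1 : (M : ℤ) ∣ 1 := by
      have h2 := hd
      rw [zero_sub, dvd_neg] at h2
      exact h2
    have h2 := Int.le_of_dvd one_pos h1
    omega
  obtain ⟨p, hp, hp8, hpd, hpb⟩ := dirichlet M hM b d hb hb0 (by omega) h hd
  have hnb : ¬ (p : ℤ) ∣ b := by
    intro h4
    have h5 := Int.natAbs_dvd_natAbs.2 h4
    have h6 : (p : ℤ).natAbs ≤ b.natAbs := Nat.le_of_dvd (by omega) h5
    have h7 : (p : ℤ).natAbs = p := Int.natAbs_natCast p
    omega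
  have hM1 : (M : ℤ) ∣ (p : ℤ) - 1 := by
    have h8 : (M : ℤ) ∣ (p : ℤ) - d := (Dvd.intro _ rfl).trans hpd
    have h9 := dvd_add h8 hd
    have e : (p : ℤ) - d + (d - 1) = p - 1 := by ring
    rwa [e] at h9
  have hE := hP M hM h3 p hp hp8 hM1 b hnb
  obtain ⟨w, hw⟩ := hpd
  have hl := E0.lo (A2.int (-w)) hE
  have hp0 : ((p : ℕ) : ℚ) ≠ 0 := by exact_mod_cast hp.ne_zero
  have hdq : (d : ℚ) ≠ 0 := by exact_mod_cast hd0
  have hdw : (p : ℚ) - d = M * b * w := by exact_mod_cast hw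
  have e1 : (M : ℚ) * ((-w : ℤ) : ℚ) * ((b : ℚ) / (p : ℚ)) + 1 = d / p := by
    rw [eq_div_iff hp0]
    push_cast
    have e2 : (M : ℚ) * -w * (b / p) * p = M * -w * b := by
      field_simp
    rw [add_mul, e2]
    linarith
  rw [e1] at hl
  have e3 : (b : ℚ) / (p : ℚ) / (d / p) = b / d := by
    field_simp
  rw [e3] at hl
  exact hl

theorem tSt : S_StP → S_Sc → S_St := by
  intro hP hS M hM h3 b d h hd
  by_cases hb : b = 0
  · rw [hb]
    simpa using E0.zero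
  · obtain ⟨i, b0, hodd, hi⟩ : ∃ (i : ℕ) (b0 : ℤ), Odd b0 ∧ b = 2 ^ i * b0 := by
      obtain ⟨i, m, hm, hbm⟩ := Nat.exists_eq_two_pow_mul_odd (Int.natAbs_ne_zero.2 hb)
      have hmo : Odd (m : ℤ) := by exact_mod_cast hm
      rcases Int.natAbs_eq b with e | e
      · exact ⟨i, m, hmo, by rw [e, hbm]; push_cast; ring⟩
      · exact ⟨i, -m, hmo.neg, by rw [e, hbm]; push_cast; ring⟩
    have hc : IsCoprime b0 d := by
      rw [hi] at h
      exact (IsCoprime.of_mul_left_right h)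
    have h1 := scPow hS M _ (odd_case hP M hM h3 b0 d hodd hc hd) i
    have e : (b : ℚ) / d = 2 ^ i * (b0 / d) := by
      rw [hi]
      push_cast
      ring
    rw [e]
    exact h1

end DI.V
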