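import Pool.Agent.Lib.DI.V.Spec

/-!
THEOREM DI, part V, module Va: the function `ha` transforms under `Γ₀(2M)`.
-/

set_option autoImplicit false

namespace DI.V

theorem tVa : S_Va := by
  intro M F _ X a b c d h hc r hr
  obtain ⟨z, rfl⟩ := hc
  have h2 : QM M (2 * r) := (QM.int 2).mul hr
  have e1 := X.v1 a b (2 * (M : ℤ) * z) d h ⟨2 * z, by ring⟩ r hr
  have e2 := X.v1 a (2 * b) ((M : ℤ) * z) d (by linarith) ⟨z, rfl⟩ (2 * r) h2
  have s1 : ((a : ℚ) * (2 * r) + ((2 * b : ℤ) : ℚ)) / ((((M : ℤ) * z : ℤ) : ℚ) * (2 * r) + d) =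
      2 * ((a * r + b) / (((2 * (M : ℤ) * z : ℤ) : ℚ) * r + d)) := by
    push_cast
    rw [mul_div_assoc']
    congr 1 <;> ring
  have s2 : ((2 * b : ℤ) : ℚ) / (d : ℚ) = 2 * (b / d) := by
    push_cast
    rw [mul_div_assoc]
  rw [s1, s2] at e2
  unfold Sy.ha
  rw [mul_zero]
  linear_combination e1 + X.kb * e2

end DI.V
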